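import Pool.Agent.helper49.ELT.Join
import Pool.Agent.helper49.ELT.Odd

/-!
# The Erdős-Lovász Tihany conjecture for a pair `(s, t)` with `s > 2 (χ - χ_f)`

Let `G` be a graph without a `k`-clique, `χ(G) ≥ k`, and let `s + t = k + 1`, `s, t ≥ 2`. Assume
that the fractional chromatic number of `G` is more than `k - s / 2`, and that `s = 3` or `G`
contains an `s`-clique. Then there is a vertex set `S` with `χ(G[S]) ≥ s` and `χ(G - S) ≥ t`; if
`G` contains an `s`-clique, then `S` can be chosen as an `s`-clique.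
-/

namespace Pool.Agent.Results.MP_364165_co.CliqueRemoval

open Pool.Agent.helper95.ELT Pool.Agent.helper49.ELT

theorem le_chromaticNumber {V : Type*} [Fintype V] [DecidableEq V] {G : SimpleGraph V}
    {S : Finset V} {p : ℕ} (h : Ge G S p) :
    (p : ℕ∞) ≤ (G.induce (S : Set V)).chromaticNumber := by
  refine le_iInf₂ fun n hn => ?_
  obtain ⟨C⟩ := hn
  have h1 : Col G S n := by
    refine ⟨fun v => if hv : v ∈ S then (C ⟨v, hv⟩ : ℕ) else 0, fun u hu => ?_,
      fun u hu v hv huv hcon => ?_⟩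
    · simp only [hu, dif_pos]
      exact (C ⟨u, hu⟩).2
    · simp only [hu, hv, dif_pos] at hcon
      exact C.valid (v := ⟨u, hu⟩) (w := ⟨v, hv⟩) huv (Fin.ext hcon)
  exact_mod_cast h n h1

theorem col_of_lt {V : Type*} [Fintype V] [DecidableEq V] {G : SimpleGraph V} {S : Finset V}
    {p : ℕ} (h : (G.induce (S : Set V)).chromaticNumber < (p + 1 : ℕ)) : Col G S p := by
  by_contra h2
  refine absurd (le_chromaticNumber (G := G) (S := S) (p := p + 1) fun m hm => ?_) (not_le.2 h)
  by_contra h3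
  exact h2 (hm.mono_num (by omega))

/-- The Erdős-Lovász Tihany conjecture for a pair `(s, t)` such that the graph contains an
`s`-clique (or `s = 3`) and `s > 2 (χ - χ_f)`. -/
theorem result {V : Type*} [Finite V] (G : SimpleGraph V) (k s t : ℕ)
    (hχ : (k : ℕ∞) ≤ G.chromaticNumber) (hfree : G.CliqueFree k) (hs : 2 ≤ s) (ht : 2 ≤ t)
    (hst : s + t = k + 1) (hsK : s = 3 ∨ ¬ G.CliqueFree s)
    (hf : (k : ℝ) - s / 2 < fractionalChromaticNumber G) :
    ∃ S : Finset V, (s : ℕ∞) ≤ (G.induce (S : Set V)).chromaticNumber ∧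
      (t : ℕ∞) ≤ (G.induce ((S : Set V)ᶜ)).chromaticNumber ∧
      (¬ G.CliqueFree s → G.IsNClique s S) := by
  classical
  cases nonempty_fintype V
  obtain ⟨a, rfl⟩ : ∃ a, s = a + 1 := ⟨s - 1, by omega⟩
  obtain ⟨b, rfl⟩ : ∃ b, t = b + 1 := ⟨t - 1, by omega⟩
  obtain rfl : k = a + b + 1 := by omega
  have hcl : ∀ (K : Finset V) (n : ℕ), G.IsNClique n K ↔ Cl G K ∧ K.card = n := by
    intro K n
    rw [SimpleGraph.isNClique_iff, SimpleGraph.isClique_iff]
    exact and_congr_left fun _ => ⟨fun h u hu v hv huv => h hu hv huv,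
      fun h u hu v hv huv => h u hu v hv huv⟩
  have hG : ¬ Col G Finset.univ (a + b) := by
    rintro ⟨c, h1, h2⟩
    have h3 : G.Colorable (a + b) := ⟨SimpleGraph.Coloring.mk
      (fun v => (⟨c v, h1 v (Finset.mem_univ _)⟩ : Fin (a + b))) fun {u v} huv h4 =>
        h2 u (Finset.mem_univ _) v (Finset.mem_univ _) huv (Fin.mk.inj h4)⟩
    have h4 := hχ.trans h3.chromaticNumber_le
    have h5 : a + b + 1 ≤ a + b := by exact_mod_cast h4
    omega
  have hfree' : ∀ K, Cl G K → K.card ≠ a + b + 1 := fun K hK hKc =>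
    hfree K ((hcl K _).2 ⟨hK, hKc⟩)
  by_cases hK : G.CliqueFree (a + 1)
  · -- `s = 3` and `G` is triangle-free
    have ha : a = 2 := by
      rcases hsK with h | h
      · omega
      · exact absurd hK h
    subst ha
    by_contra hcon
    push Not at hcon
    refine false_of_triangleFree (G := G) (b := b) (by omega) (fun S => ?_) hG
      fun K hK1 hK2 => hK K ((hcl K _).2 ⟨hK1, hK2⟩)
    by_contra h1
    push Not at h1
    have h2 : ((2 + 1 : ℕ) : ℕ∞) ≤ (G.induce (S : Set V)).chromaticNumber := by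
      by_contra h3
      exact h1.1 (col_of_lt (not_le.1 h3))
    have h3 : ((b + 1 : ℕ) : ℕ∞) ≤ (G.induce ((S : Set V)ᶜ)).chromaticNumber := by
      by_contra h4
      rw [← Finset.coe_compl] at h4
      exact h1.2 (col_of_lt (not_le.1 h4))
    exact (hcon S h2 h3).1 hK
  · by_contra hcon
    push Not at hcon
    have hC : ∀ S : Finset V, Cl G S → S.card = a + 1 → Col G Sᶜ b := by
      intro S hS hSc
      have h1 : ((a + 1 : ℕ) : ℕ∞) ≤ (G.induce (S : Set V)).chromaticNumber := by
        refine le_chromaticNumber fun m hm => ?_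
        by_contra h2
        exact not_col_of_clique hS (by omega) hm
      by_contra h2
      have h3 : ((b + 1 : ℕ) : ℕ∞) ≤ (G.induce ((S : Set V)ᶜ)).chromaticNumber := by
        by_contra h4
        rw [← Finset.coe_compl] at h4
        exact h2 (col_of_lt (not_le.1 h4))
      exact (hcon S h1 h3).2 ((hcl S _).2 ⟨hS, hSc⟩)
    obtain ⟨K₀, hK₀⟩ : ∃ K₀, G.IsNClique (a + 1) K₀ := by
      by_contra h1
      push Not at h1
      exact hK h1
    rw [hcl] at hK₀
    obtain ⟨w, hw, hw1⟩ := exists_fracClique hf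
    have h1 := weight_le hC hG hw hfree' hK₀.1 hK₀.2
    push_cast at hw1
    linarith

end Pool.Agent.Results.MP_364165_co.CliqueRemoval
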