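import Pool.Agent.helper49.ELT.Link

/-!
# The Erdős-Lovász Tihany conjecture and the common neighbourhoods of cliques

Let `χ(G) ≥ k`, `s + t = k + 1`, `t ≥ 2`, let `Q` be a clique of `G` (`Q` may be empty), let `L`
be a component of the graph induced on the common neighbours of `Q`, and let `s = |Q| + j`,
`1 ≤ j ≤ χ(G[L])`, where `j ≤ 3` or `j = χ(G[L])`. If `G[L]` has no `(j + 1)`-clique, or if
`t ≤ s + 1` and `G` has no `k`-clique, then there is a vertex set `S` with `χ(G[S]) ≥ s` and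
`χ(G - S) ≥ t`.
-/

namespace Pool.Agent.Results.MP_364165_co.CommonNeighbourhood

open Pool.Agent.helper95.ELT Pool.Agent.helper49.ELT

theorem le_chromaticNumber {V : Type*} [Fintype V] [DecidableEq V] {G : SimpleGraph V}
    {S : Finset V} {p : ℕ} (h : Ge G S p) :
    (p : ℕ∞) ≤ (G.induce (S : Set V)).chromaticNumber := by
  refine le_iInf₂ fun n hn => ?_
  obtain ⟨C⟩ := hn
  have h1 : Col G S n := by
    refine ⟨fun v => if hv : v ∈ S then (C ⟨v, hv⟩ : ℕ) else 0, fun u hu => ?_,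
      fun u hu v hv huv hcon => ?_⟩
    · simp only [hu, dif_pos]
      exact (C ⟨u, hu⟩).2
    · simp only [hu, hv, dif_pos] at hcon
      exact C.valid (v := ⟨u, hu⟩) (w := ⟨v, hv⟩) huv (Fin.ext hcon)
  exact_mod_cast h n h1

theorem ge_of_not_col {V : Type*} [Fintype V] [DecidableEq V] {G : SimpleGraph V} {S : Finset V}
    {p : ℕ} (h : ¬ Col G S p) : Ge G S (p + 1) := fun m hm => by
  by_contra h1
  exact h (hm.mono_num (by omega))

theorem colorable_of_col {V : Type*} [Fintype V] [DecidableEq V] {G : SimpleGraph V} {U : Set V}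
    {X : Finset V} (hX : ∀ v, v ∈ X ↔ v ∈ U) {m : ℕ} (h : Col G X m) :
    (G.induce U).Colorable m := by
  obtain ⟨c, h1, h2⟩ := h
  exact ⟨SimpleGraph.Coloring.mk
    (fun v : U => (⟨c v.1, h1 v.1 ((hX _).2 v.2)⟩ : Fin m)) fun {u v} huv h4 =>
      h2 u.1 ((hX _).2 u.2) v.1 ((hX _).2 v.2) huv (Fin.mk.inj h4)⟩

theorem col_of_colorable {V : Type*} [Fintype V] [DecidableEq V] {G : SimpleGraph V} {U : Set V}
    {X : Finset V} (hX : ∀ v, v ∈ X ↔ v ∈ U) {m : ℕ} (h : (G.induce U).Colorable m) :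
    Col G X m := by
  obtain ⟨C⟩ := h
  refine ⟨fun v => if hv : v ∈ X then (C ⟨v, (hX v).1 hv⟩ : ℕ) else 0, fun u hu => ?_,
    fun u hu v hv huv hcon => ?_⟩
  · simp only [hu, dif_pos]
    exact (C ⟨u, (hX u).1 hu⟩).2
  · simp only [hu, hv, dif_pos] at hcon
    exact C.valid (v := ⟨u, (hX u).1 hu⟩) (w := ⟨v, (hX v).1 hv⟩) huv (Fin.ext hcon)

/-- The Erdős-Lovász Tihany conjecture for a pair `(s, t)` in terms of a component `L` (or a
union of components) of the graph induced on the common neighbours of a clique `Q`. -/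
theorem result {V : Type*} [Finite V] (G : SimpleGraph V) (k s t : ℕ)
    (hχ : (k : ℕ∞) ≤ G.chromaticNumber) (ht : 2 ≤ t) (hst : s + t = k + 1)
    (Q : Finset V) (hQ : G.IsClique (Q : Set V))
    (L : Set V) (hL : ∀ v ∈ L, ∀ q ∈ Q, G.Adj q v)
    (hcomp : ∀ u ∈ L, ∀ v, v ∉ L → (∀ q ∈ Q, G.Adj q v) → ¬ G.Adj u v)
    (j : ℕ) (hj : 1 ≤ j) (hs : s = Q.card + j) (hjL : (j : ℕ∞) ≤ (G.induce L).chromaticNumber)
    (h3 : j ≤ 3 ∨ (G.induce L).chromaticNumber = j)
    (h : (G.induce L).CliqueFree (j + 1) ∨ (t ≤ s + 1 ∧ G.CliqueFree k)) :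
    ∃ S : Set V, (s : ℕ∞) ≤ (G.induce S).chromaticNumber ∧
      (t : ℕ∞) ≤ (G.induce Sᶜ).chromaticNumber := by
  classical
  cases nonempty_fintype V
  subst hs
  obtain ⟨b, rfl⟩ : ∃ b, t = b + 1 := ⟨t - 1, by omega⟩
  obtain ⟨m, rfl⟩ : ∃ m, k = m + 1 := ⟨k - 1, by omega⟩
  obtain ⟨X, hX⟩ : ∃ X : Finset V, ∀ v, v ∈ X ↔ v ∈ L := ⟨L.toFinset, fun v => Set.mem_toFinset⟩
  have hQ' : Cl G Q := fun u hu v hv huv => hQ hu hv huv
  have hXc : Cp G Q X := ⟨fun v hv => mem_nb.2 (hL v ((hX v).1 hv)), fun u hu v hv hvX =>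
    hcomp u ((hX u).1 hu) v (fun h => hvX ((hX v).2 h)) (mem_nb.1 hv)⟩
  have hG : ¬ Col G Finset.univ m := by
    rintro ⟨c, h1, h2⟩
    have h3 : G.Colorable m := ⟨SimpleGraph.Coloring.mk
      (fun v => (⟨c v, h1 v (Finset.mem_univ _)⟩ : Fin m)) fun {u v} huv h4 =>
        h2 u (Finset.mem_univ _) v (Finset.mem_univ _) huv (Fin.mk.inj h4)⟩
    have h4 := hχ.trans h3.chromaticNumber_le
    have h5 : m + 1 ≤ m := by exact_mod_cast h4
    omega
  have hge : Ge G X j := fun n hn => by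
    have h1 := hjL.trans (colorable_of_col hX hn).chromaticNumber_le
    exact_mod_cast h1
  have h3' : j ≤ 3 ∨ Col G X j := by
    rcases h3 with h3 | h3
    · exact Or.inl h3
    · right
      refine col_of_colorable hX ?_
      rw [← SimpleGraph.chromaticNumber_le_iff_colorable, h3]
  have key : (∃ S : Finset V, Ge G S (Q.card + j) ∧ ¬ Col G Sᶜ b) →
      ∃ S : Set V, ((Q.card + j : ℕ) : ℕ∞) ≤ (G.induce S).chromaticNumber ∧
        ((b + 1 : ℕ) : ℕ∞) ≤ (G.induce Sᶜ).chromaticNumber := by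
    rintro ⟨S, h1, h2⟩
    refine ⟨(S : Set V), le_chromaticNumber h1, ?_⟩
    have h3 := le_chromaticNumber (ge_of_not_col h2)
    rwa [Finset.coe_compl] at h3
  apply key
  rcases h with h | ⟨hts, h⟩
  · refine split_gen (k := m) (b := b) hQ' hXc hj hge h3' (fun K hKL hK hKc => ?_) (by omega)
      (by omega) hG
    refine h (K.subtype (fun v => v ∈ L)) ⟨fun u hu v hv huv => ?_, ?_⟩
    · have hu' : u.1 ∈ K := by simpa using hu
      have hv' : v.1 ∈ K := by simpa using hv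
      exact hK u.1 hu' v.1 hv' fun h => huv (Subtype.ext h)
    · rw [Finset.card_subtype, Finset.filter_true_of_mem (fun v hv => (hX v).1 (hKL hv)), hKc]
  · exact split_balanced (k := m) (b := b) hQ' hXc hj hge h3' (by omega) (by omega)
      (fun K hK hKc => h K ⟨fun u hu v hv huv => hK u hu v hv huv, hKc⟩) (by omega) hG

end Pool.Agent.Results.MP_364165_co.CommonNeighbourhood
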