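import Pool.Agent.helper49.ELT.Join

/-!
# The Erdős-Lovász Tihany conjecture for graphs with `χ ≤ χ_f + 1` and their joins

Let `G` be a graph without a `k`-clique whose chromatic number is at least `k` and whose
fractional chromatic number is at least `k - 1`. Then for all `k₁, k₂ ≥ 2` with `k₁ + k₂ = k + 1`
the graph `G` has disjoint subgraphs with chromatic numbers at least `k₁` and at least `k₂`. The
same holds if `G` contains a join of graphs `G_i` with `χ(G_i) ≥ κ_i`, `χ_f(G_i) ≥ κ_i - 1` and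
`∑ κ_i = k`. The first statement is the case of one set, `U 0 = V`.
-/

namespace Pool.Agent.Results.MP_364165_co.FractionalPlusOne

open Pool.Agent.helper95.ELT Pool.Agent.helper49.ELT

theorem le_chromaticNumber {V : Type*} [Fintype V] [DecidableEq V] {G : SimpleGraph V}
    {S : Finset V} {p : ℕ} (h : Ge G S p) :
    (p : ℕ∞) ≤ (G.induce (S : Set V)).chromaticNumber := by
  refine le_iInf₂ fun n hn => ?_
  obtain ⟨C⟩ := hn
  have h1 : Col G S n := by
    refine ⟨fun v => if hv : v ∈ S then (C ⟨v, hv⟩ : ℕ) else 0, fun u hu => ?_,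
      fun u hu v hv huv hcon => ?_⟩
    · simp only [hu, dif_pos]
      exact (C ⟨u, hu⟩).2
    · simp only [hu, hv, dif_pos] at hcon
      exact C.valid (v := ⟨u, hu⟩) (w := ⟨v, hv⟩) huv (Fin.ext hcon)
  exact_mod_cast h n h1

theorem ge_of_le_chromaticNumber {V : Type*} [Fintype V] [DecidableEq V] {G : SimpleGraph V}
    {U : Set V} {X : Finset V} (hX : ∀ v, v ∈ X ↔ v ∈ U) {p : ℕ}
    (h : (p : ℕ∞) ≤ (G.induce U).chromaticNumber) : Ge G X p := by
  rintro m ⟨c, h1, h2⟩
  have h3 : (G.induce U).Colorable m := ⟨SimpleGraph.Coloring.mk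
    (fun v : U => (⟨c v.1, h1 v.1 ((hX _).2 v.2)⟩ : Fin m)) fun {u v} huv h4 =>
      h2 u.1 ((hX _).2 u.2) v.1 ((hX _).2 v.2) huv (Fin.mk.inj h4)⟩
  exact_mod_cast h.trans h3.chromaticNumber_le

theorem not_hasClique {V : Type*} [Fintype V] [DecidableEq V] {G : SimpleGraph V} {k : ℕ}
    (h : G.CliqueFree k) : ¬ HasClique G Set.univ k := by
  rintro ⟨K, -, h1, h2⟩
  exact h K ⟨fun u hu v hv huv => h1 u hu v hv huv, h2⟩

/-- The Erdős-Lovász Tihany conjecture for graphs whose chromatic number is at most the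
fractional chromatic number plus one (`m = 1`, `U 0 = V`), and for graphs containing a join of such
graphs with the same chromatic number. -/
theorem result {V : Type*} [Finite V] (G : SimpleGraph V) (k k₁ k₂ : ℕ)
    (hfree : G.CliqueFree k) (hk₁ : 2 ≤ k₁) (hk₂ : 2 ≤ k₂) (hk : k₁ + k₂ = k + 1)
    (m : ℕ) (U : Fin m → Set V) (κ : Fin m → ℕ)
    (hjoin : ∀ i j, i ≠ j → ∀ u ∈ U i, ∀ v ∈ U j, G.Adj u v)
    (hχ : ∀ i, (κ i : ℕ∞) ≤ (G.induce (U i)).chromaticNumber)
    (hfrac : ∀ i, (κ i : ℝ) - 1 ≤ fractionalChromaticNumber (G.induce (U i)))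
    (hsum : ∑ i, κ i = k) :
    ∃ S T : Set V, Disjoint S T ∧ (k₁ : ℕ∞) ≤ (G.induce S).chromaticNumber ∧
      (k₂ : ℕ∞) ≤ (G.induce T).chromaticNumber := by
  classical
  cases nonempty_fintype V
  obtain ⟨S, T, h1, h2, h3⟩ :=
    join_split' U κ hjoin hfrac (fun i X hX => ge_of_le_chromaticNumber hX (hχ i)) hsum
      (not_hasClique hfree) hk₁ hk₂ hk
  exact ⟨S, T, Finset.disjoint_coe.2 h1, le_chromaticNumber h2, le_chromaticNumber h3⟩

end Pool.Agent.Results.MP_364165_co.FractionalPlusOne
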